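import Pool.Agent.Run7.h19.HP.Iface

set_option autoImplicit false

open Module Submodule Finset Pool.Agent.H99.SubDeg

namespace Run7.h301.HP

open Run7.h19.HP

theorem t_POP1 (hG : S_G) : S_POP1 := by
  intro K _ _ V _ _ _ k τ F T h L hL hLt
  have hk := h.hk
  unfold Transv at hLt
  push Not at hLt
  obtain ⟨A, hA, hAL⟩ := hLt
  have hp : (pts A).card = 2 ^ k - 1 := by
    have h1 := pts_card A
    rw [h.hq, h.hF.1.1 A hA] at h1
    simpa using h1
  have h2 := branching F L A (fun B hB => h.hF.1.2 B hB A hA) (bb k 3) (by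
    intro Q hQ
    simp only [pts, Finset.mem_filter, Finset.mem_univ, true_and] at hQ
    have h3 : finrank K (L ⊔ Q : Submodule K V) = 3 := by
      rw [finrank_sup_point L Q hQ.1]
      · omega
      · intro h'
        have : Q ≤ A ⊓ L := le_inf hQ.2 h'
        rw [hAL, le_bot_iff] at this
        exact point_ne_bot hQ.1 this
    have h4 := deg_bb h F subset_rfl (L ⊔ Q) (by omega)
    rwa [h3] at h4)
  rw [hp] at h2
  have h5 := hG k 2 (by omega)
  have h6 : 2 ^ (k - 2 + 1) * ((2 ^ k - 1) * bb k (2 + 1)) ≤ 2 ^ (k - 2) * bb k 2 :=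
    h5.trans (Nat.mul_le_mul_right _ (Nat.sub_le _ _))
  rw [pow_succ, mul_assoc] at h6
  have h7 := Nat.le_of_mul_le_mul_left h6 (by positivity)
  exact (Nat.mul_le_mul_left 2 h2).trans h7

section
variable {K : Type} [Field K] [Finite K] {V : Type} [AddCommGroup V] [Module K V] [Finite V]
  {k τ : ℕ} {F : Finset (Submodule K V)} {T : Submodule K V}

theorem cut_bound (hC : S_CUT) (h : Cfg k τ F T) {j : ℕ} (hj2 : 2 ≤ j) (hj : j ≤ k)
    {P : Submodule K V} (hP : finrank K P = 1) (hPT : ¬ P ≤ T) :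
    deg F P ≤ (2 ^ τ - 1) * ((2 ^ k - 1) ^ (j - 2) * bb k j) + (Tlt F j).card * bb k τ := by
  classical
  have h1 := hC K V k τ F T h j hj P
  have hsub : Fge F j ⊆ F := Finset.filter_subset _ _
  have h2 := branch_sum (Fge F j) P T (fun A hA => h.hTt A (hsub hA))
  have h3 : ∀ Q ∈ pts T, deg (Fge F j) (P ⊔ Q) ≤ (2 ^ k - 1) ^ (j - 2) * bb k j := by
    intro Q hQ
    simp only [pts, Finset.mem_filter, Finset.mem_univ, true_and] at hQ
    refine iter h (Fge F j) ⊥ j (bb k j) (fun A hA G hG => h.hF.1.2 A (hsub hA) G hG) ?_ ?_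
      (j - 2) (P ⊔ Q) bot_le ?_
    · intro A hA S _ hS hSj
      exact (Finset.mem_filter.1 hA).2 S hS hSj
    · intro S _ hS
      have h4 := deg_bb h (Fge F j) hsub S (by omega)
      rwa [hS] at h4
    · have h5 : finrank K (P ⊔ Q : Submodule K V) = finrank K P + 1 := by
        refine finrank_sup_point P Q hQ.1 fun h' => hPT ?_
        have h6 : Q = P := by
          apply Submodule.eq_of_le_of_finrank_eq h'
          rw [hQ.1, hP]
        rw [← h6]
        exact hQ.2
      rw [h5, hP]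
      omega
  have hp : (pts T).card = 2 ^ τ - 1 := by
    have h1 := pts_card T
    rw [h.hq, h.hT] at h1
    simpa using h1
  have h7 : ∑ Q ∈ pts T, deg (Fge F j) (P ⊔ Q) ≤ (2 ^ τ - 1) * ((2 ^ k - 1) ^ (j - 2) * bb k j) := by
    have h8 := Finset.sum_le_card_nsmul (pts T) _ _ h3
    rwa [hp, smul_eq_mul] at h8
  omega

end

theorem t_FIN2 (hC : S_CUT) (hN : S_N2) : S_FIN2 := by
  intro K _ _ V _ _ _ k τ F T h hk1 hk2 hT P hP
  obtain ⟨hP1, hP2, hP3⟩ := hP
  have h1 := cut_bound hC h (j := τ + 2) (by omega) hk2 hP1 hP3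
  have h2 := hN k τ h.hk hk1 hk2
  have h3 := Nat.mul_le_mul_right (bb k τ) hT
  have h4 : τ + 2 - 2 = τ := by omega
  rw [h4] at h1
  omega

theorem t_FIN1 (hC : S_CUT) (hN : S_N3) : S_FIN1 := by
  intro K _ _ V _ _ _ k τ F T h hk1 hT P hP
  obtain ⟨hP1, hP2, hP3⟩ := hP
  have hk := h.hk
  have h1 := cut_bound hC h (j := k) (by omega) le_rfl hP1 hP3
  have h2 := hN k τ h.hk hk1
  have h3 := Nat.mul_le_mul_right (bb k τ) hT
  omega

end Run7.h301.HP
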