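import Pool.Agent.Run7.h19.HP.Iface

set_option autoImplicit false

open Module Submodule Finset Pool.Agent.H99.SubDeg

namespace Run7.h301.HP

open Run7.h19.HP

lemma gb_le (a b : ℕ) : gb 2 a b ≤ 2 ^ (a * b) := by
  rw [gb]
  refine (Nat.div_le_self _ _).trans ?_
  have h : ∀ i ∈ Finset.range b, (2 ^ (a - i) - 1 : ℕ) ≤ 2 ^ a := fun i _ =>
    (Nat.sub_le _ _).trans (Nat.pow_le_pow_right (by norm_num) (Nat.sub_le _ _))
  refine (Finset.prod_le_pow_card _ _ _ h).trans ?_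
  rw [Finset.card_range, ← pow_mul]

theorem t_N0 : S_N0 := by
  intro k τ hk h1 h2
  have hq : Nat.card (ZMod 2) = 2 := Nat.card_zmod 2
  have h3 := Pool.Agent.H99.SubDeg.gb_steps (K := ZMod 2) (2 * k + 1) k (by omega) (k - 2)
    (by omega)
  rw [hq] at h3
  have h4 : gb 2 (2 * k + 1 - (2 + (k - 2))) (k - (2 + (k - 2))) = 1 := by
    have : k - (2 + (k - 2)) = 0 := by omega
    rw [this]
    simp [gb]
  rw [h4, mul_one] at h3
  have h5 : bb k τ ≤ 2 ^ ((2 * k + 1 - τ) * (k - τ)) := gb_le _ _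
  have h6 : (2 * k + 1 - τ) * (k - τ) ≤ (k + 8) * 7 :=
    Nat.mul_le_mul (by omega) (by omega)
  have h7 : 2 * k + 1 - k = k + 1 := by omega
  rw [h7] at h3
  calc 2 ^ (41 * k) * bb k τ * 2 ^ 20 ≤ 2 ^ (41 * k) * 2 ^ ((k + 8) * 7) * 2 ^ 20 := by
        refine Nat.mul_le_mul_right _ (Nat.mul_le_mul_left _ (h5.trans ?_))
        exact Nat.pow_le_pow_right (by norm_num) h6
    _ = 2 ^ (41 * k + (k + 8) * 7 + 20) := by rw [pow_add, pow_add]
    _ ≤ 2 ^ ((k + 1) * (k - 2)) := by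
        refine Nat.pow_le_pow_right (by norm_num) ?_
        obtain ⟨l, rfl⟩ : ∃ l, k = l + 200 := ⟨k - 200, by omega⟩
        have h8 : l + 200 - 2 = l + 198 := by omega
        rw [h8]
        nlinarith
    _ ≤ bb k 2 := h3

end Run7.h301.HP
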