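import Pool.Agent.Run7.h19.HP.Iface

/-! # Project HP: piece B -/

set_option autoImplicit false

open Module Submodule Finset Pool.Agent.H99.SubDeg

namespace Run7.h301.HP

open Run7.h19.HP

open scoped Classical in
theorem two_pop (hN : S_NPOP) (hO : S_POP1) {K : Type} [Field K] [Finite K] {V : Type}
    [AddCommGroup V] [Module K V] [Finite V] {k τ : ℕ} {F : Finset (Submodule K V)}
    {T : Submodule K V} (h : Cfg k τ F T) (hτ : τ + 8 ≤ k) (P : Submodule K V)
    (hP1 : finrank K P = 1) (hPd : bb k 2 < deg F P) (hPT : ¬ P ≤ T) :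
    (∃ L : Submodule K V, finrank K L = 2 ∧ Transv F L ∧ P ≤ L) ∨
      ∀ L0 : Submodule K V, ∃ L, Pop k τ F L ∧ P ≤ L ∧ L ≠ L0 := by
  by_contra hno
  push Not at hno
  obtain ⟨hnt, L0, hL0⟩ := hno
  have hb := branch_sum F P T h.hTt
  have hPQ : ∀ Q ∈ pts T, finrank K (P ⊔ Q : Submodule K V) = 2 := by
    intro Q hQ
    simp only [pts, Finset.mem_filter, Finset.mem_univ, true_and] at hQ
    rw [finrank_sup_point P Q hQ.1, hP1]
    intro h'
    exact hPT (point_eq hQ.1 hP1 h' ▸ hQ.2)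
  have hpt : (pts T).card + 1 = 2 ^ τ := by
    have h1 := pts_card T
    rw [h.hq, h.hT] at h1
    have h2 : 0 < 2 ^ τ := Nat.pos_of_ne_zero (by positivity)
    simp only [Nat.add_one_sub_one, mul_one] at h1
    omega
  have hone : ((pts T).filter (fun Q => P ⊔ Q = L0)).card ≤ 1 := by
    rw [Finset.card_le_one]
    intro Q hQ Q' hQ'
    rw [Finset.mem_filter] at hQ hQ'
    have hd := hPQ Q hQ.1
    obtain ⟨hQ1, hQ2⟩ := hQ
    obtain ⟨hQ'1, hQ'2⟩ := hQ'
    simp only [pts, Finset.mem_filter, Finset.mem_univ, true_and] at hQ1 hQ'1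
    by_contra hne
    have h1 : ¬ Q' ≤ Q := fun h' => hne (point_eq hQ'1.1 hQ1.1 h').symm
    have h2 : finrank K (Q ⊔ Q' : Submodule K V) = 2 := by
      rw [finrank_sup_point Q Q' hQ'1.1 h1, hQ1.1]
    have h3 : Q ⊔ Q' = L0 := by
      apply eq_of_le_of_finrank_eq
      · exact sup_le (hQ2 ▸ le_sup_right) (hQ'2 ▸ le_sup_right)
      · rw [h2, ← hQ2, hd]
    apply hPT
    have h4 : P ≤ L0 := hQ2 ▸ le_sup_left
    rw [← h3] at h4
    exact h4.trans (sup_le hQ1.2 hQ'1.2)
  have hterm : ∀ Q ∈ pts T, 2 ^ (τ + 1) * deg F (P ⊔ Q) ≤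
      bb k 2 + (if P ⊔ Q = L0 then 2 ^ τ * bb k 2 else 0) := by
    intro Q hQ
    have hd := hPQ Q hQ
    by_cases hE : P ⊔ Q = L0
    · rw [if_pos hE]
      have h1 := hO K V k τ F T h (P ⊔ Q) hd (fun h' => hnt _ hd h' le_sup_left)
      have h2 := Nat.mul_le_mul_left (2 ^ τ) h1
      calc 2 ^ (τ + 1) * deg F (P ⊔ Q) = 2 ^ τ * (2 * deg F (P ⊔ Q)) := by rw [pow_succ]; ring
        _ ≤ 2 ^ τ * bb k 2 := h2
        _ ≤ _ := Nat.le_add_left _ _
    · rw [if_neg hE, add_zero]
      exact hN K V k τ F T h hτ (P ⊔ Q) hd (fun h' => hE (hL0 _ h' le_sup_left))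
  have hsum : 2 ^ (τ + 1) * deg F P ≤ (pts T).card * bb k 2 + 2 ^ τ * bb k 2 := by
    calc 2 ^ (τ + 1) * deg F P ≤ 2 ^ (τ + 1) * ∑ Q ∈ pts T, deg F (P ⊔ Q) :=
          Nat.mul_le_mul_left _ hb
      _ = ∑ Q ∈ pts T, 2 ^ (τ + 1) * deg F (P ⊔ Q) := by rw [Finset.mul_sum]
      _ ≤ ∑ Q ∈ pts T, (bb k 2 + (if P ⊔ Q = L0 then 2 ^ τ * bb k 2 else 0)) :=
          Finset.sum_le_sum hterm
      _ = (pts T).card * bb k 2
          + ((pts T).filter (fun Q => P ⊔ Q = L0)).card * (2 ^ τ * bb k 2) := by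
          rw [Finset.sum_add_distrib, Finset.sum_const, smul_eq_mul, ← Finset.sum_filter,
            Finset.sum_const, smul_eq_mul]
      _ ≤ (pts T).card * bb k 2 + 1 * (2 ^ τ * bb k 2) :=
          Nat.add_le_add_left (Nat.mul_le_mul_right _ hone) _
      _ = _ := by rw [one_mul]
  have h5 : 2 ^ (τ + 1) * bb k 2 < 2 ^ (τ + 1) * deg F P :=
    Nat.mul_lt_mul_of_pos_left hPd (Nat.pos_of_ne_zero (by positivity))
  have h6 : (pts T).card * bb k 2 + 2 ^ τ * bb k 2 + bb k 2 = 2 ^ (τ + 1) * bb k 2 := by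
    have : (pts T).card * bb k 2 + 2 ^ τ * bb k 2 + bb k 2
      = ((pts T).card + 1) * bb k 2 + 2 ^ τ * bb k 2 := by ring
    rw [this, hpt, pow_succ]
    ring
  omega

theorem t_B : S_MEET → S_NPOP → S_POP1 → S_B := by
  classical
  intro hM hN hO K _ _ V _ _ _ k τ F T h hτ
  have hhigh : ∀ P ∈ high k F, finrank K P = 1 ∧ bb k 2 < deg F P := by
    intro P hP
    have h1 : finrank K P = 1 ∧ gb (Nat.card K) (finrank K V - 2) (k - 2) < deg F P := by
      simpa [high] using hP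
    rw [h.hq, h.hn] at h1
    exact h1
  have hτ2 := h.hτ2
  have hT := h.hT
  have hk := h.hk
  by_cases hstar : ∃ X : Submodule K V, finrank K X = 1 ∧
      ∀ L : Submodule K V, Pop k τ F L → X ≤ L
  · obtain ⟨X, hX, hXL⟩ := hstar
    -- a point outside `T`, not `X`, lies on a transversal line
    have hout : ∀ P ∈ high k F, ¬ P ≤ T → ¬ P ≤ X →
        ∃ L : Submodule K V, finrank K L = 2 ∧ Transv F L ∧ P ≤ L := by
      intro P hP hPT hPX
      obtain ⟨hP1, hPd⟩ := hhigh P hP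
      rcases two_pop hN hO h hτ P hP1 hPd hPT with h1 | h1
      · exact h1
      · exfalso
        obtain ⟨L, hL, hPL, hne⟩ := h1 (X ⊔ P)
        apply hne
        have h2 : finrank K (X ⊔ P : Submodule K V) = 2 := by
          rw [finrank_sup_point X P hP1 hPX, hX]
        exact (eq_of_le_of_finrank_eq (sup_le (hXL L hL) hPL) (by rw [h2, hL.1])).symm
    rcases Nat.lt_or_ge τ 3 with hτ3 | hτ3
    · -- `τ = 2`
      have hτe : τ = 2 := by omega
      have hTpop : Pop k τ F T := ⟨by omega, Or.inl h.hTt⟩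
      have hXT : X ≤ T := hXL T hTpop
      have hline : ∀ P ∈ high k F, ∃ L : Submodule K V, finrank K L = 2 ∧ Transv F L ∧ P ≤ L := by
        intro P hP
        by_cases hPT : P ≤ T
        · exact ⟨T, by omega, h.hTt, hPT⟩
        · exact hout P hP hPT (fun h' => hPT (h'.trans hXT))
      have hXt := h.hmin X (by omega)
      unfold Transv at hXt
      push Not at hXt
      obtain ⟨G, hG, hGX⟩ := hXt
      have hXG : ¬ X ≤ G := by
        intro h'
        rw [inf_eq_right.mpr h'] at hGX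
        exact point_ne_bot hX hGX
      refine ⟨G ⊔ X, by rw [finrank_sup_point G X hX hXG, h.hF.1.1 G hG], fun P hP => ?_⟩
      obtain ⟨hP1, -⟩ := hhigh P hP
      obtain ⟨L, hL, hLt, hPL⟩ := hline P hP
      simp only [pts, Finset.mem_filter, Finset.mem_univ, true_and]
      refine ⟨hP1, hPL.trans ?_⟩
      obtain ⟨Q, hQ, hQl⟩ := exists_pt (G ⊓ L) (hLt G hG)
      have hQX : ¬ Q ≤ X := fun h' => hXG (point_eq hQ hX h' ▸ hQl.trans inf_le_left)
      have h1 : finrank K (X ⊔ Q : Submodule K V) = 2 := by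
        rw [finrank_sup_point X Q hQ hQX, hX]
      have h2 : X ⊔ Q = L :=
        eq_of_le_of_finrank_eq (sup_le (hXL L ⟨hL, Or.inl hLt⟩) (hQl.trans inf_le_right)) (by omega)
      rw [← h2]
      exact sup_le le_sup_right ((hQl.trans inf_le_left).trans le_sup_left)
    · refine ⟨T ⊔ X, ?_, fun P hP => ?_⟩
      · have := Submodule.finrank_add_le_finrank_add_finrank T X
        omega
      · simp only [pts, Finset.mem_filter, Finset.mem_univ, true_and]
        refine ⟨(hhigh P hP).1, ?_⟩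
        by_contra hPW
        obtain ⟨L, hL, hLt, -⟩ := hout P hP (fun h' => hPW (h'.trans le_sup_left))
          (fun h' => hPW (h'.trans le_sup_right))
        exact h.hmin L (by omega) hLt
  · have hnt : ∃ L1 : Submodule K V, Pop k τ F L1 := by
      by_contra hno
      push Not at hno
      obtain ⟨X, hX, -⟩ := exists_pt T (by
        intro h0
        rw [h0, finrank_bot] at hT
        omega)
      exact hstar ⟨X, hX, fun L hL => absurd hL (hno L)⟩
    obtain ⟨L1, hL1⟩ := hnt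
    obtain ⟨U, hU, hUL⟩ := lines (fun L => Pop k τ F L) (fun L h' => h'.1)
      (fun L hL L' hL' => hM K V k τ F T h hτ L L' hL hL') L1 hL1 hstar
    refine ⟨T ⊔ U, ?_, fun P hP => ?_⟩
    · have := Submodule.finrank_add_le_finrank_add_finrank T U
      omega
    · obtain ⟨hP1, hPd⟩ := hhigh P hP
      simp only [pts, Finset.mem_filter, Finset.mem_univ, true_and]
      refine ⟨hP1, ?_⟩
      by_contra hPW
      have hPT : ¬ P ≤ T := fun h' => hPW (h'.trans le_sup_left)
      rcases two_pop hN hO h hτ P hP1 hPd hPT with ⟨L, hL, hLt, hPL⟩ | h1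
      · exact hPW ((hPL.trans (hUL L ⟨hL, Or.inl hLt⟩)).trans le_sup_right)
      · obtain ⟨L, hL, hPL, -⟩ := h1 ⊥
        exact hPW ((hPL.trans (hUL L hL)).trans le_sup_right)

end Run7.h301.HP
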