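import Pool.Agent.Run7.h19.HP.Iface

/-! # Project HP: piece NEAR -/

set_option autoImplicit false

open Module Submodule Finset Pool.Agent.H99.SubDeg

namespace Run7.h301.HP

open Run7.h19.HP

theorem exists_span_range {K : Type} [Field K] {V : Type} [AddCommGroup V] [Module K V]
    [FiniteDimensional K V] (W : Submodule K V) (m : ℕ) (hW : finrank K W ≤ m) :
    ∃ v : Fin m → V, span K (Set.range v) = W := by
  let b := Module.finBasis K W
  refine ⟨fun i => if h : (i : ℕ) < finrank K W then (b ⟨i, h⟩ : V) else 0, ?_⟩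
  apply le_antisymm
  · rw [span_le]
    rintro _ ⟨i, rfl⟩
    by_cases h : (i : ℕ) < finrank K W
    · simp only [h, dif_pos, SetLike.mem_coe]
      exact (b ⟨i, h⟩).2
    · simp only [h, dif_neg, not_false_iff, SetLike.mem_coe]
      exact W.zero_mem
  · intro x hx
    have h1 : (⟨x, hx⟩ : W) ∈ span K (Set.range b) := by
      rw [b.span_eq]; trivial
    have h2 : x ∈ (span K (Set.range b)).map W.subtype := ⟨⟨x, hx⟩, h1, rfl⟩
    rw [map_span] at h2
    refine span_mono ?_ h2
    rintro _ ⟨_, ⟨i, rfl⟩, rfl⟩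
    refine ⟨⟨i, lt_of_lt_of_le i.2 hW⟩, ?_⟩
    simp

theorem t_NEAR : S_NEAR := by
  classical
  intro K _ _ V _ _ _ k τ j T hK hV hk hT hτk hkτ hj
  have : Module.Finite K V := Module.Finite.of_finite
  let Φ : (Fin 10 → Dual K T) × (Fin 11 → V) → Submodule K V := fun p =>
    ((span K (Set.range p.1)).dualCoannihilator).map T.subtype ⊔ span K (Set.range p.2)
  have : Finite (Dual K T) := Module.finite_of_finite K
  have : Fintype ((Fin 10 → Dual K T) × (Fin 11 → V)) := Fintype.ofFinite _
  have hsub : (univ.filter (fun S : Submodule K V => finrank K S = j ∧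
      τ ≤ finrank K (S ⊓ T : Submodule K V) + 10)) ⊆ (univ.image Φ) := by
    intro S hS
    simp only [Finset.mem_filter, Finset.mem_univ, true_and] at hS
    obtain ⟨hSj, hST⟩ := hS
    rw [Finset.mem_image]
    -- the functionals
    have hD : finrank K (comap T.subtype S).dualAnnihilator ≤ 10 := by
      have h1 := Subspace.finrank_add_finrank_dualAnnihilator_eq (comap T.subtype S)
      have h2 : finrank K (comap T.subtype S) = finrank K (S ⊓ T : Submodule K V) := by
        have h3 : (comap T.subtype S).map T.subtype = S ⊓ T := by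
          rw [map_comap_subtype, inf_comm]
        rw [← h3]
        exact (LinearEquiv.finrank_eq (equivMapOfInjective _ T.injective_subtype _))
      rw [h2, hT] at h1
      omega
    obtain ⟨f, hf⟩ := exists_span_range _ 10 hD
    obtain ⟨Q, hQ⟩ := Submodule.exists_isCompl (S ⊓ T)
    have hC1 : (S ⊓ T) ⊔ (Q ⊓ S) = S := by
      rw [← sup_inf_assoc_of_le Q (inf_le_left : S ⊓ T ≤ S), hQ.sup_eq_top, top_inf_eq]
    have hC2 : finrank K (Q ⊓ S : Submodule K V) ≤ 11 := by
      have h1 := Submodule.finrank_sup_add_finrank_inf_eq (S ⊓ T) (Q ⊓ S)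
      have h2 : (S ⊓ T) ⊓ (Q ⊓ S) = ⊥ := by
        rw [← inf_assoc, hQ.inf_eq_bot, bot_inf_eq]
      rw [hC1, h2, finrank_bot] at h1
      omega
    obtain ⟨v, hv⟩ := exists_span_range _ 11 hC2
    refine ⟨(f, v), Finset.mem_univ _, ?_⟩
    show ((span K (Set.range f)).dualCoannihilator).map T.subtype ⊔ span K (Set.range v) = S
    rw [hf, hv, Subspace.dualAnnihilator_dualCoannihilator_eq, map_comap_subtype, inf_comm T S, hC1]
  refine (Finset.card_le_card hsub).trans (Finset.card_image_le.trans ?_)
  rw [Finset.card_univ, ← Nat.card_eq_fintype_card, Nat.card_prod, Nat.card_fun, Nat.card_fun,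
    Module.natCard_eq_pow_finrank (K := K) (V := Dual K T),
    Module.natCard_eq_pow_finrank (K := K) (V := V), hK, hV, Subspace.dual_finrank_eq, hT]
  simp only [Nat.card_eq_fintype_card, Fintype.card_fin]
  rw [← pow_mul, ← pow_mul, ← pow_add]
  apply Nat.pow_le_pow_right (by norm_num)
  omega

end Run7.h301.HP
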